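import Pool.Agent.Lib.ConwayAuto.Summary

/-!
# Automatic invariants of Conway's permutation

For every base `b ≥ 2` with no prime factor other than 2 and 3, the `b`-automatic sets of natural numbers that are closed under
Conway's permutation `g` are exactly the sets `S` with `g(S) = S` that are finite or cofinite. So, for every `x`, no
`b`-automatic set closed under `g` contains `g x` but not `x`, and an infinite forward orbit of `g` is not `b`-automatic.
-/

set_option autoImplicit false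

namespace Pool.Agent.Results.MP_ff1266_nt.AutomaticInvariants

/-- Conway's permutation of the problem: `2m ↦ 3m`, `4m - 1 ↦ 3m - 1`, `4m + 1 ↦ 3m + 1` (and `0 ↦ 0`) -/
def g (n : ℕ) : ℕ := if n % 2 = 0 then 3 * (n / 2) else (3 * n + 1) / 4

/-- `S` is `b`-automatic: the sets `{m : b^w m + r ∈ S}`, `w ≥ 0`, `0 ≤ r < b^w`, are finitely many -/
def AutomaticIn (b : ℕ) (S : Set ℕ) : Prop :=
  {T : Set ℕ | ∃ w r : ℕ, r < b ^ w ∧ T = {m : ℕ | b ^ w * m + r ∈ S}}.Finite

theorem g_eq (n : ℕ) : ConwayAuto.g n = g n := by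
  unfold ConwayAuto.g g
  split_ifs with h1 h2
  · rfl
  · omega
  · omega

theorem automatic_of_finite {b : ℕ} (hb : 2 ≤ b) {S : Set ℕ} (hS : S.Finite) : AutomaticIn b S := by
  obtain ⟨N, hN⟩ := hS.bddAbove
  refine ((Set.finite_Iic N).powerset).subset ?_
  rintro T ⟨w, r, -, rfl⟩ m hm
  have h1 : b ^ w * m + r ≤ N := hN hm
  have h2 : m ≤ b ^ w * m := Nat.le_mul_of_pos_left _ (Nat.pow_pos (by omega))
  exact Set.mem_Iic.2 (by omega)

theorem automatic_compl {b : ℕ} {S : Set ℕ} (h : AutomaticIn b S) : AutomaticIn b Sᶜ :=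
  ConwayAuto.AutomaticIn.compl h

/-- an invariant set that is finite or cofinite contains `n` as soon as it contains `g n` -/
theorem backward {S : Set ℕ} (h : S.Finite ∨ Sᶜ.Finite) (hS : ∀ n ∈ S, g n ∈ S) (n : ℕ)
    (hn : g n ∈ S) : n ∈ S := by
  have hS' : ∀ n ∈ S, ConwayAuto.g n ∈ S := fun n hn => by rw [g_eq]; exact hS n hn
  rcases h with hfin | hfin
  · have h := ConwayAuto.Final.image_eq_of_closed ConwayAuto.g_injective hfin hS'
    rw [← h] at hn
    obtain ⟨s, hs, hsn⟩ := hn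
    rw [← g_eq n] at hsn
    rw [← ConwayAuto.g_injective hsn]
    exact hs
  · by_contra hx
    have hC : ∀ n ∈ Sᶜ, ConwayAuto.gi n ∈ Sᶜ := by
      intro n hn' h
      apply hn'
      rw [← ConwayAuto.g_gi n]
      exact hS' _ h
    have h := ConwayAuto.Final.image_eq_of_closed ConwayAuto.gi_injective hfin hC
    have hx' : n ∈ Sᶜ := hx
    rw [← h] at hx'
    obtain ⟨s, hs, hsn⟩ := hx'
    have : s = g n := by rw [← ConwayAuto.g_gi s, hsn, g_eq]
    rw [this] at hs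
    exact hs hn

/-- The automatic sets closed under Conway's permutation are the finite or cofinite invariant sets. -/
theorem result :
    (∀ (b : ℕ) (S : Set ℕ), 2 ≤ b → (∀ p : ℕ, p.Prime → p ∣ b → p = 2 ∨ p = 3) →
      ((AutomaticIn b S ∧ ∀ n ∈ S, g n ∈ S) ↔
        ((S.Finite ∨ Sᶜ.Finite) ∧ ∀ n, g n ∈ S ↔ n ∈ S))) ∧
    (¬ ∃ (b : ℕ) (S : Set ℕ) (x : ℕ), 2 ≤ b ∧ (∀ p : ℕ, p.Prime → p ∣ b → p = 2 ∨ p = 3) ∧
      AutomaticIn b S ∧ (∀ n ∈ S, g n ∈ S) ∧ g x ∈ S ∧ x ∉ S) ∧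
    (∀ b x : ℕ, 2 ≤ b → (∀ p : ℕ, p.Prime → p ∣ b → p = 2 ∨ p = 3) →
      (∀ k : ℕ, 0 < k → g^[k] x ≠ x) → ¬ AutomaticIn b {n : ℕ | ∃ k : ℕ, n = g^[k] x}) := by
  have key : ∀ (b : ℕ) (S : Set ℕ), 2 ≤ b → (∀ p : ℕ, p.Prime → p ∣ b → p = 2 ∨ p = 3) →
      AutomaticIn b S → (∀ n ∈ S, g n ∈ S) → S.Finite ∨ Sᶜ.Finite :=
    fun b S hb hp hA hS =>
      ConwayAuto.smooth_base b hb hp S hA (fun n hn => by rw [g_eq]; exact hS n hn)
  refine ⟨?_, ?_, ?_⟩
  · intro b S hb hp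
    constructor
    · rintro ⟨hA, hS⟩
      have h := key b S hb hp hA hS
      exact ⟨h, fun n => ⟨backward h hS n, fun hn => hS n hn⟩⟩
    · rintro ⟨h, hg⟩
      refine ⟨?_, fun n hn => (hg n).2 hn⟩
      rcases h with h | h
      · exact automatic_of_finite hb h
      · have := automatic_compl (automatic_of_finite hb h)
        rwa [compl_compl] at this
  · rintro ⟨b, S, x, hb, hp, hA, hS, hx, hx'⟩
    exact hx' (backward (key b S hb hp hA hS) hS x hx)
  · intro b x hb hp hx hA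
    have hS : ∀ n ∈ {n : ℕ | ∃ k : ℕ, n = g^[k] x}, g n ∈ {n : ℕ | ∃ k : ℕ, n = g^[k] x} := by
      rintro n ⟨k, rfl⟩
      exact ⟨k + 1, (Function.iterate_succ_apply' g k x).symm⟩
    have hgi : g (ConwayAuto.gi x) = x := by rw [← g_eq, ConwayAuto.g_gi]
    obtain ⟨k, hk⟩ := backward (key b _ hb hp hA hS) hS (ConwayAuto.gi x)
      ⟨0, by rw [hgi, Function.iterate_zero, id]⟩
    apply hx (k + 1) (Nat.succ_pos k)
    rw [Function.iterate_succ_apply', ← hk, hgi]

end Pool.Agent.Results.MP_ff1266_nt.AutomaticInvariants
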