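import Mathlib
import Pool.Agent.Lib.GItin.Rec
import Pool.Agent.Lib.GItin.Freq
import Pool.Agent.Lib.GItin.Resid

/-!
# The complexity of the itineraries of the permutation `2m ↦ 3m`, `4m ± 1 ↦ 3m ± 1`

The itinerary of a two-sided orbit is the word of the residue types (even, `1` modulo `4`, `3`
modulo `4`) of its terms; `complexity x m` is the number of its subwords of length `m`.
-/

open Filter Finset

namespace Pool.Agent.Results.MP_ff1266_nt.ItineraryComplexity

/-- the permutation of the problem: `2m ↦ 3m`, `4m - 1 ↦ 3m - 1`, `4m + 1 ↦ 3m + 1` -/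
def g (n : ℕ) : ℕ := if n % 2 = 0 then 3 * (n / 2) else (3 * n + 1) / 4

/-- the residue type of `n`: `0` for even `n`, `1` for `n ≡ 1`, `3` for `n ≡ 3` modulo `4` -/
def resType (n : ℕ) : ℕ := if n % 2 = 0 then 0 else n % 4

/-- `x` is a two-sided orbit of `g` in the positive integers -/
def IsOrbit (x : ℤ → ℕ) : Prop := ∀ k, 0 < x k ∧ x (k + 1) = g (x k)

/-- the number of the different words formed by the residue types of `m` successive terms -/
noncomputable def complexity (x : ℤ → ℕ) (m : ℕ) : ℕ :=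
  (Set.range fun k : ℤ => fun i : Fin m => resType (x (k + i))).ncard

/-- the number of even terms among `x 0, x 1, ..., x (N - 1)` -/
def evenAfter (x : ℤ → ℕ) (N : ℕ) : ℕ := ((range N).filter (fun i : ℕ => Even (x i))).card

/-- the number of even terms among `x (-1), x (-2), ..., x (-N)` -/
def evenBefore (x : ℤ → ℕ) (N : ℕ) : ℕ :=
  ((range N).filter (fun i : ℕ => Even (x (-(i : ℤ) - 1)))).card

theorem result :
    (∀ n : ℕ, 0 < n → ∃! x : ℤ → ℕ, IsOrbit x ∧ x 0 = n) ∧
    ∀ x : ℤ → ℕ, IsOrbit x →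
      (Function.Injective x ↔ ∀ k : ℕ, 1 ≤ k → g^[k] (x 0) ≠ x 0) ∧
      -- (1) words are classes modulo `3 ^ m`; few words force few small elements
      (∀ m : ℕ, complexity x m = (Set.range fun k : ℤ => x k % 3 ^ m).ncard ∧
        (Set.range x ∩ Set.Icc 1 (3 ^ m)).ncard ≤ complexity x m) ∧
      -- (2) an explicit lower bound
      (∀ c m : ℕ, x 0 < 3 ^ c → Set.range x ⊆ Set.Icc 1 (3 ^ m) ∨
        65 * m ≤ 10 * complexity x m + 65 * c + 8) ∧
      (Function.Injective x →
        -- (3) the even terms in the two directions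
        (∀ ε : ℝ, 0 < ε → ∀ᶠ N : ℕ in atTop,
          (Real.logb 2 (4 / 3) - ε) * N ≤ evenAfter x N ∧
          (evenBefore x N : ℝ) ≤ (Real.logb 2 (4 / 3) + ε) * N) ∧
        -- (4) frequencies and complexity
        (∀ t t' : ℝ, (∀ ε : ℝ, 0 < ε → ∀ᶠ N : ℕ in atTop, (evenAfter x N : ℝ) ≤ (t + ε) * N) →
          (∀ ε : ℝ, 0 < ε → ∀ᶠ N : ℕ in atTop, (t' - ε) * N ≤ evenBefore x N) →
          ∀ A B : ℝ, 0 ≤ A → 0 ≤ B →
          A * ((t - Real.logb 2 (4 / 3)) * Real.log 2) < Real.log 3 →
          B * ((Real.logb 2 (4 / 3) - t') * Real.log 2) < Real.log 3 →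
          ∀ᶠ m : ℕ in atTop, (A + B) * m ≤ (complexity x m : ℝ)) ∧
        -- (5) some word of length `m` is missing in some interval of `C m` indices
        ∀ C : ℕ, ∀ᶠ m : ℕ in atTop, ∃ k j : ℤ, ∀ l, j ≤ l → l < j + C * m →
          ∃ i : ℕ, i < m ∧ resType (x (l + i)) ≠ resType (x (k + i))) := by
  refine ⟨?_, ?_⟩
  · intro n hn
    refine ⟨GItin.orb n, ⟨GItin.orb_isOrbit hn, rfl⟩, ?_⟩
    rintro y ⟨hy, hy0⟩
    exact GItin.orbit_unique hy (GItin.orb_isOrbit hn) hy0
  · intro x hx
    have hx' : GItin.IsOrbit x := hx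
    refine ⟨GItin.inj_iff hx', fun m => ⟨GItin.card_eq hx' m, GItin.card_le hx' m⟩, ?_, ?_⟩
    · intro c m hc
      rcases GItin.many_small hx' c m hc with h | h
      · exact Or.inl h
      · right
        have h1 : (Set.range x ∩ Set.Icc 1 (3 ^ m)).ncard ≤ complexity x m := GItin.card_le hx' m
        omega
    · intro hi
      refine ⟨GItin.freq_bounds hx' hi, ?_, ?_⟩
      · intro t t' ht ht' A B hA hB h1 h2
        exact GItin.frequencies hx' hi t t' ht ht' A B hA hB h1 h2
      · intro C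
        exact GItin.recurrence hx' hi C

end Pool.Agent.Results.MP_ff1266_nt.ItineraryComplexity
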