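import Mathlib
import Pool.Agent.Lib.GPerm.SharpB

/-!
# Orbits of the permutation `2m ↦ 3m`, `4m ± 1 ↦ 3m ± 1` grow faster than linearly

A sharp edge expansion inequality for subsets of `[1, M]`, and its consequences: every stretch of
distinct iterates inside `[1, M]` (of the orbit of 8 for instance) has `O(M^(79/80))` elements, and
the cycles inside `[1, M]` have `O(M^(79/80))` elements together.
-/

open Finset

namespace Pool.Agent.Results.MP_ff1266_nt.OrbitGrowth

/-- the permutation of the problem: `2m ↦ 3m`, `4m - 1 ↦ 3m - 1`, `4m + 1 ↦ 3m + 1` -/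
def g (n : ℕ) : ℕ := if n % 2 = 0 then 3 * (n / 2) else (3 * n + 1) / 4

/-- the number of the elements of `A` whose image under `g` is not in `A` -/
def exits (A : Finset ℕ) : ℕ := (A.filter (fun n => g n ∉ A)).card

open Classical in
theorem result :
    (∃ K : ℝ, ∀ M : ℕ, 1 ≤ M →
      (∀ A : Finset ℕ, A ⊆ Icc 1 M →
        (A.card : ℝ) ≤ K * (M : ℝ) ^ (79 / 80 : ℝ)
          + K * ((exits A : ℝ) * Real.log (2 * M / exits A))) ∧
      (∀ a N : ℕ, 1 ≤ a → (∀ i < N, g^[i] a ≤ M) →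
        (((range N).image (fun i => g^[i] a)).card : ℝ) ≤ K * (M : ℝ) ^ (79 / 80 : ℝ)) ∧
      (((Icc 1 M).filter (fun n : ℕ => (∃ k : ℕ, 0 < k ∧ g^[k] n = n) ∧
        ∀ i : ℕ, g^[i] n ≤ M)).card : ℝ) ≤ K * (M : ℝ) ^ (79 / 80 : ℝ)) ∧
    (∀ L M : ℕ, 4 ^ (L + 1) ≤ M → ∃ A : Finset ℕ, A ⊆ Icc 1 M ∧
      (exits A : ℝ) ≤ M / 4 ^ L ∧ (L : ℝ) * (M / 4 ^ L) ≤ 4 * A.card) := by
  refine ⟨⟨2000000, fun M hM => ?_⟩, ?_⟩
  · have hp : (0 : ℝ) ≤ (M : ℝ) ^ (79 / 80 : ℝ) := by positivity
    refine ⟨?_, ?_, ?_⟩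
    · intro A hA
      exact GPerm.sharp M hM A hA (exits A) rfl
    · intro a N ha h
      have h1 := GPerm.orbits M hM a N ha h
      have h2 : (((range N).image (fun i => g^[i] a)).card : ℝ)
          ≤ 90014 * (M : ℝ) ^ (79 / 80 : ℝ) := by
        convert h1
        rfl
      refine h2.trans ?_
      exact mul_le_mul_of_nonneg_right (by norm_num) hp
    · set A := (Icc 1 M).filter (fun n : ℕ => (∃ k : ℕ, 0 < k ∧ g^[k] n = n) ∧
        ∀ i : ℕ, g^[i] n ≤ M) with hA
      have h1 := GPerm.expansion M hM A (filter_subset _ _)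
      have h2 : A.filter (fun n => GPerm.g n ∉ A) = ∅ := by
        apply filter_eq_empty_iff.2
        intro n hn
        rw [not_not]
        rw [hA] at hn ⊢
        obtain ⟨h3, ⟨k, hk0, hk⟩, h5⟩ := mem_filter.1 hn
        refine mem_filter.2 ⟨mem_Icc.2 ⟨GPerm.g_pos n (mem_Icc.1 h3).1, ?_⟩, ⟨k, hk0, ?_⟩, ?_⟩
        · exact h5 1
        · show g^[k] (g n) = g n
          rw [← Function.iterate_succ_apply, Function.iterate_succ_apply', hk]
        · intro i
          exact h5 (i + 1)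
      have h6 := h1
      simp only [h2, card_empty, Nat.cast_zero, mul_zero, add_zero] at h6
      refine h6.trans ?_
      exact mul_le_mul_of_nonneg_right (by norm_num) hp
  · intro L M hM
    exact GPerm.extremal L M hM

end Pool.Agent.Results.MP_ff1266_nt.OrbitGrowth
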