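import Pool.Agent.Lib.CPM.FinalB

/-!
# The orbit of 8 near Conway's permutation

Undecidability of the finiteness of the orbit of 8 for permutations of the positive integers that are affine on residue classes
and agree with Conway's permutation `g` on any given finite set of integers that leaves out two elements of the `g`-orbit of 8,
and off at most four residue classes modulo an arbitrarily large number.
-/

set_option autoImplicit false

namespace Pool.Agent.Results.MP_ff1266_nt.OrbitOfEight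

/-- Conway's permutation of the problem: `2m ↦ 3m`, `4m - 1 ↦ 3m - 1`, `4m + 1 ↦ 3m + 1` -/
def g (n : ℕ) : ℕ := if n % 2 = 0 then 3 * (n / 2) else (3 * n + 1) / 4

/-- The map of the table `L = [(a_1, b_1), ..., (a_m, b_m)]` on the positive integers: `n = m k + r` with `k ≥ 0`,
`1 ≤ r ≤ m` goes to `a_r k + b_r`. -/
def tableMap (L : List (ℕ × ℕ)) (n : ℕ) : ℕ :=
  (L.getD ((n - 1) % L.length) (0, 0)).1 * ((n - 1) / L.length) + (L.getD ((n - 1) % L.length) (0, 0)).2

/-- the positive integers `a`, `b` lie on one orbit of `g` -/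
def SameOrbit (a b : ℕ) : Prop := ∃ i, g^[i] a = b ∨ g^[i] b = a

/-- Undecidability of the finiteness of the orbit of 8 arbitrarily near Conway's permutation. -/
theorem result (A : ℕ → Prop) (hA : REPred A) (F : Finset ℕ) (u v : ℕ) (huv : u ≠ v) (hu0 : 0 < u) (hv0 : 0 < v)
    (hu : u ∉ F) (hv : v ∉ F) (hou : SameOrbit 8 u) (hov : SameOrbit 8 v) (K : ℕ) :
    ∃ (c : ℕ) (E : Finset ℕ) (L : ℕ → List (ℕ × ℕ)), K ≤ c ∧ E.card ≤ 4 ∧ Computable L ∧
      ∀ x, Set.BijOn (tableMap (L x)) {n | 0 < n} {n | 0 < n} ∧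
        (∀ n, 0 < n → n ∈ F ∨ n % c ∉ E → tableMap (L x) n = g n) ∧
        (A x ↔ ∃ k, 0 < k ∧ (tableMap (L x))^[k] 8 = 8) := by
  have hg : ∀ n, 0 < n → CPM.cmap CPM.conway n = g n := fun n hn => CPM.conway_eq n hn
  have hg0 : ∀ n, 0 < n → 0 < g n := by
    intro n hn
    unfold g
    split_ifs with h
    · omega
    · omega
  have hpos : ∀ i n, 0 < n → 0 < g^[i] n := by
    intro i
    induction i with
    | zero => intro n hn; exact hn
    | succ i ih =>
      intro n hn
      rw [Function.iterate_succ_apply]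
      exact ih _ (hg0 n hn)
  have hit : ∀ i n, 0 < n → (CPM.cmap CPM.conway)^[i] n = g^[i] n := by
    intro i
    induction i with
    | zero => intro n _; rfl
    | succ i ih =>
      intro n hn
      rw [Function.iterate_succ_apply', Function.iterate_succ_apply', ih n hn, hg _ (hpos i n hn)]
  have conv : ∀ w, 0 < w → SameOrbit 8 w →
      ∃ i, (CPM.cmap CPM.conway)^[i] 8 = w ∨ (CPM.cmap CPM.conway)^[i] w = 8 := by
    rintro w hw ⟨i, hi⟩
    refine ⟨i, ?_⟩
    rw [hit i 8 (by norm_num), hit i w hw]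
    exact hi
  obtain ⟨c, E, L, h1, h2, h3, h4⟩ :=
    CPM.finalB A hA F u v huv hu0 hv0 hu hv (conv u hu0 hou) (conv v hv0 hov) K
  refine ⟨c, E, L, h1, h2, h3, fun x => ?_⟩
  obtain ⟨p1, p2, p3, p4⟩ := h4 x
  refine ⟨p1, ?_, p4⟩
  rintro n hn (hF | hE)
  · exact (p2 n hF hn).trans (hg n hn)
  · exact (p3 n hn hE).trans (hg n hn)

end Pool.Agent.Results.MP_ff1266_nt.OrbitOfEight
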